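import Pool.Agent.Helper4.CI.Goals
import Pool.Agent.Helper33.Mono.ZFormula
import Pool.Agent.Helper22.Mono.EX1
import Pool.Agent.Helper60.Mono.EX2
import Pool.Agent.Helper71.Mono.ConeGen
import Pool.Agent.Helper40.Mono.DualFan

/-!
# Functions on nondegenerate complete intersections: the limit (piece L3)
-/

namespace Mono.CI.L3

open Finset Filter Topology Mono Mono.CI Mono.H33Z

variable {N k : ℕ}

theorem nuw_affine (A : Option (Fin k) → Finset (Fin N → ℤ)) (η : Fin (N + k) → ℝ) (ε : ℝ)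
    (a : Fin N → ℤ) :
    nuw A ((fun _ => (1 : ℝ)) + ε • η) a = nuw A (fun _ => 1) a + ε * nuw A η a := by
  unfold nuw
  simp only [Pi.add_apply, Pi.smul_apply, smul_eq_mul, add_mul, one_mul, Finset.sum_add_distrib]
  rw [mul_sub, Finset.mul_sum, Finset.mul_sum]
  simp only [mul_assoc]
  ring

theorem nuw_one (A : Option (Fin k) → Finset (Fin N → ℤ)) (a : Fin N → ℤ) :
    nuw A (fun _ => 1) a = ((∑ i, a i - ∑ j, NA (A (some j)) a : ℤ) : ℝ) := by
  unfold nuw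
  simp

/-- Positivity at `w = 1`. -/
theorem pos_one {A : Option (Fin k) → Finset (Fin N → ℤ)} (hg : Good A) (hp : PosNu A)
    {a : Fin N → ℤ} (ha : ∀ i, 0 ≤ a i) (ha0 : a ≠ 0) {s : ℝ} (hs : 0 < s) :
    0 < (NA (A none) a : ℝ) * s + nuw A (fun _ => 1) a := by
  have h1 := hp a ha ha0
  have h2 : (0 : ℝ) ≤ NA (A none) a := by
    exact_mod_cast NA_nonneg (hg.ne none) (hg.nonneg none) ha
  have h3 : 0 ≤ (NA (A none) a : ℝ) * s := mul_nonneg h2 hs.le
  rw [nuw_one]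
  have h4 : (0 : ℤ) < ∑ i, a i - ∑ j, NA (A (some j)) a := by linarith
  have h5 : (0 : ℝ) < ((∑ i, a i - ∑ j, NA (A (some j)) a : ℤ) : ℝ) := by exact_mod_cast h4
  linarith

theorem eventually_pos {A : Option (Fin k) → Finset (Fin N → ℤ)} (hg : Good A) (hp : PosNu A)
    {a : Fin N → ℤ} (ha : ∀ i, 0 ≤ a i) (ha0 : a ≠ 0) {s : ℝ} (hs : 0 < s)
    (η : Fin (N + k) → ℝ) :
    ∀ᶠ ε : ℝ in 𝓝[>] 0,
      0 < (NA (A none) a : ℝ) * s + nuw A ((fun _ => (1 : ℝ)) + ε • η) a := by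
  have h1 := pos_one hg hp ha ha0 hs
  have h2 := (tendsto_affine ((NA (A none) a : ℝ) * s + nuw A (fun _ => 1) a)
    (nuw A η a)).eventually (lt_mem_nhds h1)
  filter_upwards [h2] with ε hε
  rw [nuw_affine, ← add_assoc]
  exact hε

theorem tendsto_coord (η : Fin (N + k) → ℝ) (i : Fin (N + k)) :
    Tendsto (fun ε : ℝ => ((fun _ => (1 : ℝ)) + ε • η : Fin (N + k) → ℝ) i) (𝓝[>] 0) (𝓝 1) := by
  have : (fun ε : ℝ => ((fun _ => (1 : ℝ)) + ε • η : Fin (N + k) → ℝ) i) = fun ε => 1 + ε * η i := by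
    funext ε
    simp
  rw [this]
  exact tendsto_affine _ _

/-- Continuity of the weighted zeta function along the path. -/
theorem tendsto_ZCw {A : Option (Fin k) → Finset (Fin N → ℤ)} (hg : Good A) (hp : PosNu A)
    (T : Fan N) {s : ℝ} (hs : 0 < s) (η : Fin (N + k) → ℝ) :
    Tendsto (fun ε : ℝ => ZCw A T s ((fun _ => (1 : ℝ)) + ε • η)) (𝓝[>] 0)
      (𝓝 (ZCw A T s (fun _ => 1))) := by
  classical
  have hinv : ∀ i, Tendsto (fun ε : ℝ => (((fun _ => (1 : ℝ)) + ε • η : Fin (N + k) → ℝ) i)⁻¹) (𝓝[>] 0)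
      (𝓝 ((1 : ℝ)⁻¹)) := fun i => (tendsto_coord η i).inv₀ one_ne_zero
  unfold ZCw
  refine tendsto_finsetSum _ fun φ _ => ?_
  refine Tendsto.mul ?_ ?_
  · refine Tendsto.div_const ?_ _
    refine Tendsto.add ?_ (Tendsto.const_mul _ ?_)
    · unfold chi0w
      refine Tendsto.const_mul _ ?_
      refine tendsto_finsetSum _ fun J _ => ?_
      refine Tendsto.const_mul _ ?_
      exact tendsto_finsetProd _ fun j _ => hinv _
    · unfold chi1w
      refine Tendsto.const_mul _ ?_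
      refine tendsto_finsetSum _ fun J _ => ?_
      refine Tendsto.const_mul _ ?_
      exact tendsto_finsetProd _ fun j _ => hinv _
  · refine tendsto_finsetSum _ fun δ hδ => ?_
    rw [Finset.mem_filter, T.mem_faces] at hδ
    refine Tendsto.div tendsto_const_nhds ?_ ?_
    · refine tendsto_finsetProd _ fun a _ => ?_
      refine Tendsto.const_add _ ?_
      simp only [nuw_affine]
      exact tendsto_affine _ _
    · rw [Finset.prod_ne_zero_iff]
      intro a ha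
      obtain ⟨ha0, ha1⟩ := face_pos hδ.1 ha
      have hne : a ≠ 0 := by
        rintro rfl
        rw [toR_zero, dotProduct_zero] at ha1
        exact lt_irrefl _ ha1
      exact (pos_one hg hp ha0 hne hs).ne'

open Classical in
/-- The exceptional values of `s`. -/
noncomputable def exc (A : Option (Fin k) → Finset (Fin N → ℤ)) (L : ℕ)
    (Z : Finset (Fin (N + k) → ℤ)) (Φ' Φ T' : Fan (N + k)) : Finset ℝ :=
  Φ.mx.image (fun F => - psi (Hset A Z) F (fun _ => (1 : ℝ))) ∪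
    Φ'.mx.image (fun F => (L : ℝ) * ((k : ℝ) - psi Z F (fun _ => (1 : ℝ)))) ∪
    T'.vert.image (fun a => (L : ℝ) *
      ((k : ℝ) - ((fun _ => (1 : ℝ)) ⬝ᵥ toR a) / (NA (scay A L) a : ℝ)))

theorem scay_nonneg {A : Option (Fin k) → Finset (Fin N → ℤ)} {b : Fin N → ℝ} {L : ℕ}
    {b' : Fin (N + k) → ℝ} {Z : Finset (Fin (N + k) → ℤ)} {Φ' Φ : Fan (N + k)}
    (ht : TriC A b L b' Z Φ' Φ) : (scay A L).Nonempty ∧ ∀ v ∈ scay A L, ∀ i, 0 ≤ v i :=
  ⟨ht.tri.1, ht.tri.2.1⟩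

/-- The identity near `w = 1`. -/
theorem eventually_eq (h4 : ZWC) (hP : PrimalC) {A : Option (Fin k) → Finset (Fin N → ℤ)}
    {b : Fin N → ℝ} {L : ℕ} {b' : Fin (N + k) → ℝ} {Z : Finset (Fin (N + k) → ℤ)}
    {Φ' Φ : Fan (N + k)} (ht : TriC A b L b' Z Φ' Φ) (hb : ∀ i, 0 < b i) (hp : PosNu A)
    {η : Fin (N + k) → ℝ} (hη : Φ.Generic η) {T : Fan N} (hT : ∀ c, Adapted (A c) T)
    {T' : Fan (N + k)} (hT' : Adapted (scay A L) T') {s : ℝ} (hs : 0 < s)
    (hE : s ∉ exc A L Z Φ' Φ T') :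
    ∀ᶠ ε : ℝ in 𝓝[>] 0, ZCw A T s ((fun _ => (1 : ℝ)) + ε • η) =
      (1 / (s + 1)) * (R0 Φ Z ((fun _ => (1 : ℝ)) + ε • η) -
        s * W2 Φ (Hset A Z) Z s ((fun _ => (1 : ℝ)) + ε • η)) := by
  classical
  have hg := ht.good
  have hL0 : (0 : ℝ) < L := by
    have := ht.two_le
    exact_mod_cast (by omega : 0 < L)
  set w : ℝ → Fin (N + k) → ℝ := fun ε => (fun _ => (1 : ℝ)) + ε • η with hw
  set s' : ℝ → ℝ := fun ε => s / L - ∑ j, w ε (Fin.natAdd N j) with hs'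
  have hs'eq : ∀ ε, s' ε = (s / L - k) + ε * (-∑ j : Fin k, η (Fin.natAdd N j)) := by
    intro ε
    simp only [hs', hw, Pi.add_apply, Pi.smul_apply, smul_eq_mul, Finset.sum_add_distrib,
      Finset.sum_const, Finset.card_univ, Fintype.card_fin, nsmul_eq_mul, mul_one]
    rw [← Finset.mul_sum]
    ring
  have hE1 : ∀ F ∈ Φ.mx, s + psi (Hset A Z) F (fun _ => (1 : ℝ)) ≠ 0 := by
    intro F hF h
    apply hE
    unfold exc
    refine Finset.mem_union_left _ (Finset.mem_union_left _ ?_)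
    exact Finset.mem_image.2 ⟨F, hF, by linarith⟩
  have hE2 : ∀ F ∈ Φ'.mx, (s / L - k) + psi Z F (fun _ => (1 : ℝ)) ≠ 0 := by
    intro F hF h
    apply hE
    unfold exc
    refine Finset.mem_union_left _ (Finset.mem_union_right _ ?_)
    refine Finset.mem_image.2 ⟨F, hF, ?_⟩
    have h2 : s / L = k - psi Z F (fun _ => (1 : ℝ)) := by linarith
    rw [← h2]
    field_simp
  have hE3 : ∀ a ∈ T'.vert, NA (scay A L) a ≠ 0 →
      (NA (scay A L) a : ℝ) * (s / L - k) + (fun _ => (1 : ℝ)) ⬝ᵥ toR a ≠ 0 := by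
    intro a ha hN h
    apply hE
    unfold exc
    refine Finset.mem_union_right _ ?_
    refine Finset.mem_image.2 ⟨a, ha, ?_⟩
    have hN' : (NA (scay A L) a : ℝ) ≠ 0 := by exact_mod_cast hN
    have h2 : s / L = k - ((fun _ => (1 : ℝ)) ⬝ᵥ toR a) / (NA (scay A L) a : ℝ) := by
      field_simp at h ⊢
      linarith
    rw [← h2]
    field_simp
  have e1 : ∀ᶠ ε : ℝ in 𝓝[>] 0, ∀ F ∈ Φ.mx, ∀ u ∈ F, crd F (w ε) u ≠ 0 := by
    rw [Filter.eventually_all_finset]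
    intro F hF
    rw [Filter.eventually_all_finset]
    intro u hu
    have h5 := eventually_affine (crd F (fun _ => (1 : ℝ)) u) (crd F η u) (hη.1 F hF u hu)
    filter_upwards [h5] with ε hε
    have hi := Φ.mx_indep F hF
    have hc := Φ.mx_card F hF
    simp only [hw]
    rw [crd_add hi hc, crd_smul hi hc]
    exact hε
  have e2 : ∀ᶠ ε : ℝ in 𝓝[>] 0, ∀ i : Fin (N + k), w ε i ≠ 0 := by
    rw [Filter.eventually_all]
    intro i
    exact (tendsto_coord η i).eventually_ne one_ne_zero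
  have e3 : ∀ᶠ ε : ℝ in 𝓝[>] 0, ∀ F ∈ Φ.mx, s + psi (Hset A Z) F (w ε) ≠ 0 := by
    rw [Filter.eventually_all_finset]
    intro F hF
    have hi := Φ.mx_indep F hF
    have hc := Φ.mx_card F hF
    have h5 := (tendsto_affine (s + psi (Hset A Z) F (fun _ => (1 : ℝ)))
      (psi (Hset A Z) F η)).eventually_ne (hE1 F hF)
    filter_upwards [h5] with ε hε
    simp only [hw]
    rw [psi_add _ hi hc, psi_smul _ hi hc, ← add_assoc]
    exact hε
  have e4 : ∀ᶠ ε : ℝ in 𝓝[>] 0, ∀ F ∈ Φ'.mx, s' ε + psi Z F (w ε) ≠ 0 := by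
    rw [Filter.eventually_all_finset]
    intro F hF
    have hi := Φ'.mx_indep F hF
    have hc := Φ'.mx_card F hF
    have h5 := (tendsto_affine ((s / L - k) + psi Z F (fun _ => (1 : ℝ)))
      ((-∑ j : Fin k, η (Fin.natAdd N j)) + psi Z F η)).eventually_ne (hE2 F hF)
    filter_upwards [h5] with ε hε
    rw [hs'eq]
    simp only [hw]
    rw [psi_add _ hi hc, psi_smul _ hi hc]
    convert hε using 1
    ring
  have e5 : ∀ᶠ ε : ℝ in 𝓝[>] 0, ∀ δ ∈ T'.mx, ∀ a ∈ δ,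
      (NA (scay A L) a : ℝ) * s' ε + w ε ⬝ᵥ toR a ≠ 0 := by
    rw [Filter.eventually_all_finset]
    intro δ hδ
    rw [Filter.eventually_all_finset]
    intro a ha
    obtain ⟨ha0, ha1⟩ := face_pos ⟨δ, hδ, Finset.Subset.refl δ⟩ ha
    have h6 : (NA (scay A L) a : ℝ) * (s / L - k) + (fun _ => (1 : ℝ)) ⬝ᵥ toR a ≠ 0 := by
      by_cases hN : NA (scay A L) a = 0
      · rw [hN]
        simp only [Int.cast_zero, zero_mul, zero_add]
        exact ha1.ne'
      · exact hE3 a (T'.mx_sub δ hδ ha) hN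
    have h7 := (tendsto_affine ((NA (scay A L) a : ℝ) * (s / L - k) +
      (fun _ => (1 : ℝ)) ⬝ᵥ toR a) ((NA (scay A L) a : ℝ) *
      (-∑ j : Fin k, η (Fin.natAdd N j)) + η ⬝ᵥ toR a)).eventually_ne h6
    filter_upwards [h7] with ε hε
    rw [hs'eq]
    simp only [hw]
    rw [dot_w]
    convert hε using 1
    ring
  have e6 : ∀ᶠ ε : ℝ in 𝓝[>] 0, ∀ δ ∈ T'.mx, ∀ a ∈ δ, w ε ⬝ᵥ toR a ≠ 0 := by
    rw [Filter.eventually_all_finset]
    intro δ hδ
    rw [Filter.eventually_all_finset]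
    intro a ha
    obtain ⟨ha0, ha1⟩ := face_pos ⟨δ, hδ, Finset.Subset.refl δ⟩ ha
    have h7 := (tendsto_affine ((fun _ => (1 : ℝ)) ⬝ᵥ toR a)
      (η ⬝ᵥ toR a)).eventually_ne ha1.ne'
    filter_upwards [h7] with ε hε
    simp only [hw]
    rw [dot_w]
    exact hε
  have e7 : ∀ᶠ ε : ℝ in 𝓝[>] 0, ∀ a ∈ T.vert, a ≠ 0 →
      0 < (NA (A none) a : ℝ) * s + nuw A (w ε) a := by
    rw [Filter.eventually_all_finset]
    intro a ha
    by_cases h0 : a = 0
    · exact Filter.Eventually.of_forall fun ε h => absurd h0 h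
    · filter_upwards [eventually_pos hg hp (T.vert_nonneg a ha) h0 hs η] with ε hε _
      exact hε
  have e8 : ∀ᶠ ε : ℝ in 𝓝[>] 0, ∀ a ∈ T'.vert, base a ≠ 0 →
      0 < (NA (A none) (base a) : ℝ) * s + nuw A (w ε) (base a) := by
    rw [Filter.eventually_all_finset]
    intro a ha
    by_cases h0 : base a = 0
    · exact Filter.Eventually.of_forall fun ε h => absurd h0 h
    · filter_upwards [eventually_pos hg hp (fun i => T'.vert_nonneg a ha (Fin.castAdd k i))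
        h0 hs η] with ε hε _
      exact hε
  filter_upwards [e1, e2, e3, e4, e5, e6, e7, e8] with ε h1' h2' h3' h4' h5' h6' h7' h8'
  have hgen : Φ.Generic (w ε) := ⟨h1', h2'⟩
  refine h4 N k A b L b' Z Φ' Φ ht hb T hT (w ε) hgen s (by linarith) h3' ?_
  refine hP N k A b L b' Z Φ' Φ ht T hT T' hT' s (s' ε) (w ε) ?_ hgen h4' h5' h6' h7' h8'
  simp only [hs']
  field_simp
  ring

/-- L3: the limit formula. -/
theorem limitC (h1 : LimitW2) (h4 : ZWC) (hP : PrimalC) : LimitC := by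
  classical
  intro N k A b L b' Z Φ' Φ ht hb hp
  obtain ⟨η, hη⟩ := exists_eta Φ
  obtain ⟨q, hq0, hq⟩ := h1 (N + k) Φ (Hset A Z) Z η hη
  refine ⟨q, hq0, ?_⟩
  intro T hT
  obtain ⟨T', hT'⟩ := dualFan fanOfGeneric genericHeights coneGen (N + k) (scay A L)
    ht.tri.1 ht.tri.2.1
  set E := exc A L Z Φ' Φ T' with hEdef
  set S : ℝ → ℝ := fun s => ∑ a ∈ Φ.mx.image (fun F => psi (Hset A Z) F (fun _ => (1 : ℝ))),
        (q a).eval (1 / (s + a)) with hS
  have key : ∀ s : ℝ, 0 < s → s ∉ E → Tendsto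
      (fun ε : ℝ => R0 Φ Z ((fun _ => (1 : ℝ)) + ε • η)) (𝓝[>] 0)
      (𝓝 ((s + 1) * ZCw A T s (fun _ => 1) + s * S s)) := by
    intro s hs hsE
    have hE1 : ∀ F ∈ Φ.mx, s + psi (Hset A Z) F (fun _ => (1 : ℝ)) ≠ 0 := by
      intro F hF h
      apply hsE
      rw [hEdef]
      unfold exc
      refine Finset.mem_union_left _ (Finset.mem_union_left _ ?_)
      exact Finset.mem_image.2 ⟨F, hF, by linarith⟩
    have hW := hq s hE1
    have hZ := tendsto_ZCw ht.good hp T hs η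
    have hsum := (hZ.const_mul (s + 1)).add (hW.const_mul s)
    refine hsum.congr' ?_
    filter_upwards [eventually_eq h4 hP ht hb hp hη hT hT' hs hsE] with ε hε
    rw [hε]
    have : s + 1 ≠ 0 := by linarith
    field_simp
    ring
  obtain ⟨s₁, hs₁, hs₁E⟩ : ∃ s : ℝ, 0 < s ∧ s ∉ E := by
    have hinf : (Set.Ioi (0 : ℝ)).Infinite := Set.Ioi_infinite 0
    obtain ⟨s, hs, hsE⟩ := hinf.exists_notMem_finset E
    exact ⟨s, hs, hsE⟩
  refine ⟨(s₁ + 1) * ZCw A T s₁ (fun _ => 1) + s₁ * S s₁, E, ?_⟩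
  intro s hs hsE
  have huniq := tendsto_nhds_unique (key s₁ hs₁ hs₁E) (key s hs hsE)
  rw [huniq]
  have : s + 1 ≠ 0 := by linarith
  simp only [hS]
  field_simp
  ring

end Mono.CI.L3
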