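import Pool.Agent.Helper4.CI.Goals
import Pool.Agent.Helper94.Mono.CellSum
import Pool.Agent.Helper42.Mono.KFormula

/-!
# Functions on nondegenerate complete intersections: multiplicities (piece M1)
-/

namespace Mono.CI.M1

open Finset Mono Mono.CI Mono.C94

variable {N k : ℕ}

@[simp] theorem lift_castAdd (c : Option (Fin k)) (u : Fin N → ℤ) (i : Fin N) :
    lift c u (Fin.castAdd k i) = u i := by
  simp [lift]

@[simp] theorem lift_natAdd (c : Option (Fin k)) (u : Fin N → ℤ) (j : Fin k) :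
    lift c u (Fin.natAdd N j) = ind c j := by
  simp [lift]

@[simp] theorem base_lift (c : Option (Fin k)) (u : Fin N → ℤ) : base (lift c u) = u := by
  funext i
  simp [base]

theorem ind_inj {c c' : Option (Fin k)} (h : ∀ j, ind c j = ind c' j) : c = c' := by
  cases c with
  | none =>
    cases c' with
    | none => rfl
    | some j => simpa [ind] using h j
  | some i =>
    cases c' with
    | none => simpa [ind] using h i
    | some j =>
      have := h i
      simp only [ind, if_true] at this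
      by_contra hne
      rw [if_neg (fun h => hne h.symm)] at this
      exact one_ne_zero this

theorem mem_cay {φ : Option (Fin k) → Finset (Fin N → ℤ)} {C : Finset (Option (Fin k))}
    {w : Fin (N + k) → ℤ} : w ∈ cay φ C ↔ ∃ c ∈ C, ∃ t ∈ φ c, lift c t = w := by
  simp [cay]

theorem mem_Kh_cast {K : Finset (Fin N)} {i : Fin N} : Fin.castAdd k i ∈ Kh k K ↔ i ∈ K := by
  simp [Kh]

theorem not_mem_Kh_nat {K : Finset (Fin N)} {j : Fin k} : Fin.natAdd N j ∉ Kh k K := by
  simp only [Kh, Finset.mem_image, not_exists, not_and]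
  intro i _ h
  have := congrArg Fin.val h
  simp only [Fin.val_castAdd, Fin.val_natAdd] at this
  omega

theorem prK_lift (K : Finset (Fin N)) (c : Option (Fin k)) (t : Fin N → ℤ) :
    prK (Kh k K) (lift c t) = lift c (prK K t) := by
  funext i
  refine Fin.addCases (fun i => ?_) (fun j => ?_) i
  · simp only [prK, lift_castAdd, mem_Kh_cast]
  · simp only [prK, lift_natAdd, not_mem_Kh_nat, if_false]

theorem dot_lift_none (x : Fin (N + k) → ℤ) (t : Fin N → ℤ) :
    x ⬝ᵥ lift none t = base x ⬝ᵥ t := by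
  simp only [dotProduct, Fin.sum_univ_add, lift_castAdd, lift_natAdd, base]
  simp [ind]

theorem dot_lift_some (x : Fin (N + k) → ℤ) (j : Fin k) (t : Fin N → ℤ) :
    x ⬝ᵥ lift (some j) t = base x ⬝ᵥ t + x (Fin.natAdd N j) := by
  simp only [dotProduct, Fin.sum_univ_add, lift_castAdd, lift_natAdd, base]
  congr 1
  rw [Finset.sum_eq_single j]
  · simp [ind]
  · intro i _ hi
    have : ¬ (some j = some i) := fun h => hi (Option.some.inj h).symm
    simp [ind, this]
  · simp

theorem mem_cols {ρ : Finset (Fin (N + k) → ℤ)} {c : Option (Fin k)} :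
    c ∈ cols ρ ↔ ∃ v ∈ ρ, ∀ j, v (Fin.natAdd N j) = ind c j := by
  simp [cols]

theorem mem_coll {ρ : Finset (Fin (N + k) → ℤ)} {c : Option (Fin k)} {t : Fin N → ℤ} :
    t ∈ coll ρ c ↔ ∃ v ∈ ρ, (∀ j, v (Fin.natAdd N j) = ind c j) ∧ base v = t := by
  simp [coll, and_assoc]

theorem dotR (x y : Fin N → ℤ) : toR x ⬝ᵥ toR y = ((x ⬝ᵥ y : ℤ) : ℝ) := by
  simp [dotProduct, toR]

/-- The direction space. -/
def dirC (φ : Option (Fin k) → Finset (Fin N → ℤ)) : Submodule ℝ (Fin N → ℝ) :=
  Submodule.span ℝ {x : Fin N → ℝ | ∃ c, ∃ u ∈ φ c, ∃ v ∈ φ c, x = toR u - toR v}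

theorem dimC_eq (φ : Option (Fin k) → Finset (Fin N → ℤ)) :
    dimC φ = Module.finrank ℝ (dirC φ) := rfl

theorem cell_sub_A {A : Option (Fin k) → Finset (Fin N → ℤ)} {K : Finset (Fin N)}
    {b : Fin N → ℝ} {φ : Option (Fin k) → Finset (Fin N → ℤ)} (hφ : φ ∈ cellsC A K b)
    (c : Option (Fin k)) : φ c ⊆ A c := by
  classical
  unfold cellsC at hφ
  exact Finset.mem_powerset.1 (Fintype.mem_piFinset.1 (Finset.mem_filter.1 hφ).1 c)

/-- M1. -/
theorem latEq (hD : CardColl) : LatEq := by
  classical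
  intro N k A b L b' Z Φ' Φ ht K φ hφ ρ hρ hK hsub hnone hcard
  set H := Hset A Z with hH
  set ψ := prC K φ with hψ
  have hind : Indep ρ := ((Φ.mem_faces).1 hρ).indep
  -- description of the elements of `ρ \ Z`
  have helt : ∀ w ∈ ρ \ Z, ∃ c, ∃ t ∈ φ c, lift c t = w := by
    intro w hw
    obtain ⟨c, _, t, ht, h⟩ := mem_cay.1 (hsub hw)
    exact ⟨c, t, ht, h⟩
  have hmemψ : ∀ c, ∀ t ∈ φ c, prK K t ∈ ψ c := by
    intro c t htc
    exact mem_projS.2 ⟨t, htc, rfl⟩
  have hZH : Z ⊆ H := Finset.subset_union_left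
  have hnotH : ∀ t, lift none t ∈ ρ \ Z → lift none t ∉ H := by
    intro t hw hmem
    rw [hH, Hset, Finset.mem_union] at hmem
    rcases hmem with hmem | hmem
    · exact (Finset.mem_sdiff.1 hw).2 hmem
    · rw [Finset.mem_biUnion] at hmem
      obtain ⟨j, _, hj⟩ := hmem
      obtain ⟨v, _, hv⟩ := Finset.mem_image.1 hj
      have := congrFun hv (Fin.natAdd N j)
      rw [lift_natAdd, lift_natAdd] at this
      simp [ind] at this
  have hinH : ∀ j, ∀ t ∈ φ (some j), lift (some j) t ∈ H := by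
    intro j t htj
    rw [hH, Hset, Finset.mem_union]
    right
    rw [Finset.mem_biUnion]
    exact ⟨j, Finset.mem_univ j, Finset.mem_image.2 ⟨t, cell_sub_A hφ _ htj, rfl⟩⟩
  -- the projected simplex
  set ρ₀ := projS (Kh k K) (ρ \ Z) with hρ₀
  have hρ₀elt : ∀ w ∈ ρ₀, ∃ c, ∃ t ∈ φ c, lift c t ∈ ρ \ Z ∧ w = lift c (prK K t) := by
    intro w hw
    obtain ⟨u, hu, rfl⟩ := mem_projS.1 hw
    obtain ⟨c, t, htc, rfl⟩ := helt u hu
    exact ⟨c, t, htc, hu, prK_lift K c t⟩
  have hcoll : ∀ c, ∀ t ∈ coll ρ₀ c, ∃ t₁ ∈ φ c, lift c t₁ ∈ ρ \ Z ∧ t = prK K t₁ := by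
    intro c t htc
    obtain ⟨v, hv, hvc, rfl⟩ := mem_coll.1 htc
    obtain ⟨c', t₁, ht₁, hmem, rfl⟩ := hρ₀elt v hv
    have : c' = c := ind_inj fun j => by rw [← hvc j, lift_natAdd]
    subst this
    exact ⟨t₁, ht₁, hmem, base_lift _ _⟩
  have hcols : cols ρ₀ = cols (ρ \ Z) := by
    ext c
    rw [mem_cols, mem_cols]
    constructor
    · rintro ⟨v, hv, hvc⟩
      obtain ⟨u, hu, rfl⟩ := mem_projS.1 hv
      refine ⟨u, hu, fun j => ?_⟩
      have := hvc j
      simpa only [prK, not_mem_Kh_nat, if_false] using this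
    · rintro ⟨u, hu, huc⟩
      refine ⟨prK (Kh k K) u, mem_projS.2 ⟨u, hu, rfl⟩, fun j => ?_⟩
      simpa only [prK, not_mem_Kh_nat, if_false] using huc j
  have hcard₀ : ρ₀.card = (ρ \ Z).card := card_projS hind hK
  have hD2 := hD N k ρ₀ (indep_projS hind hK) (by
    intro v hv
    obtain ⟨c, t, _, _, h⟩ := hρ₀elt v hv
    exact ⟨c, _, h⟩)
  have hdim : dimC ψ ≤ dimC (coll ρ₀) := by
    rw [hcard₀, hcols] at hD2
    omega
  have hle : dirC (coll ρ₀) ≤ dirC ψ := by
    unfold dirC
    refine Submodule.span_mono ?_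
    rintro x ⟨c, u, hu, v, hv, rfl⟩
    obtain ⟨u₁, hu₁, _, rfl⟩ := hcoll c u hu
    obtain ⟨v₁, hv₁, _, rfl⟩ := hcoll c v hv
    exact ⟨c, _, hmemψ c u₁ hu₁, _, hmemψ c v₁ hv₁, rfl⟩
  have hdir : dirC (coll ρ₀) = dirC ψ :=
    Submodule.eq_of_le_of_finrank_le hle hdim
  obtain ⟨t₀, ht₀φ, ht₀⟩ : ∃ t₀ ∈ φ none, lift none t₀ ∈ ρ \ Z := by
    obtain ⟨v, hv, hvc⟩ := mem_cols.1 hnone
    obtain ⟨c, t, htc, rfl⟩ := helt v hv
    have : c = none := ind_inj fun j => by rw [← hvc j, lift_natAdd]
    subst this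
    exact ⟨t, htc, hv⟩
  constructor
  · unfold latDistZ latC
    congr 1
    ext m
    constructor
    · rintro ⟨hm, κ', hk1, hk0⟩
      refine ⟨hm, base κ', ?_⟩
      have hzero : ∀ i ∈ K, base κ' i = 0 := by
        intro i hi
        have hmem : (Pi.single (Fin.castAdd k i) 1 : Fin (N + k) → ℤ) ∈ ρ ∩ Z := by
          rw [hK, mem_eK]
          exact ⟨_, mem_Kh_cast.2 hi, rfl⟩
        have h := hk0 _ (Finset.mem_inter.2 ⟨(Finset.mem_inter.1 hmem).1,
          hZH (Finset.mem_inter.1 hmem).2⟩)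
        simpa [base] using h
      have hval : ∀ c, ∃ mc : ℤ, (c = none → mc = m) ∧
          ∀ t ∈ φ c, lift c t ∈ ρ \ Z → base κ' ⬝ᵥ t = mc := by
        intro c
        cases c with
        | none =>
          refine ⟨m, fun _ => rfl, fun t _ hmem => ?_⟩
          rw [← dot_lift_none]
          exact hk1 _ (Finset.mem_sdiff.2 ⟨(Finset.mem_sdiff.1 hmem).1, hnotH t hmem⟩)
        | some j =>
          refine ⟨-κ' (Fin.natAdd N j), fun h => by simp at h, fun t htj hmem => ?_⟩
          have := hk0 _ (Finset.mem_inter.2 ⟨(Finset.mem_sdiff.1 hmem).1, hinH j t htj⟩)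
          rw [dot_lift_some] at this
          linarith
      have hkill : ∀ x ∈ dirC (coll ρ₀), toR (base κ') ⬝ᵥ x = 0 := by
        intro x hx
        unfold dirC at hx
        induction hx using Submodule.span_induction with
        | mem x hx =>
          obtain ⟨c, u, hu, v, hv, rfl⟩ := hx
          obtain ⟨mc, _, hmc⟩ := hval c
          obtain ⟨u₁, hu₁, hu₁', rfl⟩ := hcoll c u hu
          obtain ⟨v₁, hv₁, hv₁', rfl⟩ := hcoll c v hv
          rw [dotProduct_sub, dotR, dotR, dotZ_prK hzero, dotZ_prK hzero, hmc u₁ hu₁ hu₁',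
            hmc v₁ hv₁ hv₁', sub_self]
        | zero => simp
        | add x y _ _ hx hy => rw [dotProduct_add, hx, hy, add_zero]
        | smul a x _ hx => rw [dotProduct_smul, hx, smul_zero]
      have hconst : ∀ c, ∀ u ∈ ψ c, ∀ v ∈ ψ c, base κ' ⬝ᵥ u = base κ' ⬝ᵥ v := by
        intro c u hu v hv
        have h1 : toR u - toR v ∈ dirC (coll ρ₀) := by
          rw [hdir]
          exact Submodule.subset_span ⟨c, u, hu, v, hv, rfl⟩
        have h2 := hkill _ h1
        rw [dotProduct_sub, dotR, dotR, sub_eq_zero] at h2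
        exact_mod_cast h2
      refine ⟨fun j u hu v hv => hconst (some j) u hu v hv, fun u hu => ?_⟩
      rw [hconst none u hu (prK K t₀) (hmemψ none t₀ ht₀φ), dotZ_prK hzero]
      obtain ⟨mc, h1, h2⟩ := hval none
      rw [h2 t₀ ht₀φ ht₀, h1 rfl]
    · rintro ⟨hm, κ, hc, hn⟩
      refine ⟨hm, ?_⟩
      have hcj : ∀ j : Fin k, ∃ cj : ℤ, ∀ t ∈ φ (some j), prK K κ ⬝ᵥ t = cj := by
        intro j
        by_cases hne : ∃ t, t ∈ φ (some j)
        · obtain ⟨t₁, ht₁⟩ := hne
          refine ⟨prK K κ ⬝ᵥ t₁, fun t ht => ?_⟩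
          rw [prK_dotZ, prK_dotZ]
          exact hc j _ (hmemψ _ t ht) _ (hmemψ _ t₁ ht₁)
        · exact ⟨0, fun t ht => absurd ⟨t, ht⟩ hne⟩
      choose cj hcj using hcj
      set κ' : Fin (N + k) → ℤ := Fin.append (prK K κ) (fun j => -cj j) with hκ'
      have hbase : base κ' = prK K κ := by
        funext i
        simp [base, hκ']
      have hnat : ∀ j, κ' (Fin.natAdd N j) = -cj j := by
        intro j
        simp [hκ']
      refine ⟨κ', fun u hu => ?_, fun u hu => ?_⟩
      · obtain ⟨huρ, huH⟩ := Finset.mem_sdiff.1 hu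
        have huZ : u ∉ Z := fun h => huH (hZH h)
        obtain ⟨c, t, htc, rfl⟩ := helt u (Finset.mem_sdiff.2 ⟨huρ, huZ⟩)
        cases c with
        | none =>
          rw [dot_lift_none, hbase, prK_dotZ]
          exact hn _ (hmemψ none t htc)
        | some j => exact absurd (hinH j t htc) huH
      · obtain ⟨huρ, huH⟩ := Finset.mem_inter.1 hu
        by_cases huZ : u ∈ Z
        · have : u ∈ eK (Kh k K) := by
            rw [← hK]
            exact Finset.mem_inter.2 ⟨huρ, huZ⟩
          obtain ⟨i, hi, rfl⟩ := mem_eK.1 this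
          obtain ⟨i', hi', rfl⟩ := Finset.mem_image.1 hi
          have h2 : κ' (Fin.castAdd k i') = 0 := by
            have := congrFun hbase i'
            simp only [base, prK, if_pos hi'] at this
            exact this
          simp [h2]
        · obtain ⟨c, t, htc, rfl⟩ := helt u (Finset.mem_sdiff.2 ⟨huρ, huZ⟩)
          cases c with
          | none => exact absurd huH (hnotH t (Finset.mem_sdiff.2 ⟨huρ, huZ⟩))
          | some j =>
            rw [dot_lift_some, hbase, hnat, hcj j t htc]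
            ring
  · intro hcs
    refine le_antisymm hind.card_le_cs ?_
    rw [cs_split hK, card_split hK, hcard]
    refine Nat.add_le_add_left ?_ _
    have hsub2 : cs (projS (Kh k K) (ρ \ Z)) ⊆
        (csC ψ).image (Fin.castAdd k) ∪
          ((univ : Finset (Fin k)).filter (fun j => some j ∈ cols (ρ \ Z))).image
            (Fin.natAdd N) := by
      intro i hi
      obtain ⟨w, hw, hwi⟩ := mem_cs94.1 hi
      obtain ⟨c, t, htc, hmem, rfl⟩ := hρ₀elt w hw
      revert hwi
      refine Fin.addCases (fun i => ?_) (fun j => ?_) i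
      · intro hwi
        rw [lift_castAdd] at hwi
        refine Finset.mem_union_left _ (Finset.mem_image.2 ⟨i, ?_, rfl⟩)
        unfold csC
        rw [Finset.mem_filter]
        exact ⟨Finset.mem_univ _, c, _, hmemψ c t htc, hwi⟩
      · intro hwi
        rw [lift_natAdd] at hwi
        have hcj : c = some j := by
          by_contra hne
          exact hwi (by simp [ind, hne])
        subst hcj
        refine Finset.mem_union_right _ (Finset.mem_image.2 ⟨j, ?_, rfl⟩)
        rw [Finset.mem_filter]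
        exact ⟨Finset.mem_univ _, mem_cols.2 ⟨_, hmem, fun j => lift_natAdd _ _ _⟩⟩
    have h1 := Finset.card_le_card hsub2
    have h2 : (((univ : Finset (Fin k)).filter (fun j => some j ∈ cols (ρ \ Z))).image
        (Fin.natAdd N)).card ≤ (cols (ρ \ Z)).card - 1 := by
      refine Finset.card_image_le.trans ?_
      have h3 : (((univ : Finset (Fin k)).filter (fun j => some j ∈ cols (ρ \ Z))).image
          some) ⊆ (cols (ρ \ Z)).erase none := by
        intro c hc
        obtain ⟨j, hj, rfl⟩ := Finset.mem_image.1 hc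
        rw [Finset.mem_erase]
        exact ⟨by simp, (Finset.mem_filter.1 hj).2⟩
      have h4 := Finset.card_le_card h3
      rw [Finset.card_image_of_injective _ (Option.some_injective _),
        Finset.card_erase_of_mem hnone] at h4
      exact h4
    have h3 : ((csC ψ).image (Fin.castAdd k)).card ≤ (csC ψ).card := Finset.card_image_le
    have h4 := Finset.card_union_le ((csC ψ).image (Fin.castAdd k))
      (((univ : Finset (Fin k)).filter (fun j => some j ∈ cols (ρ \ Z))).image (Fin.natAdd N))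
    have h5 : 0 < (cols (ρ \ Z)).card := Finset.card_pos.2 ⟨none, hnone⟩
    omega

end Mono.CI.M1
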